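import Pool.Agent.W211.AF.Last
import Pool.Agent.W211.AF.CovC
import Pool.Agent.W688.AF.Apr
import Pool.Agent.W177.AF.Covs
import Pool.Agent.W211.AF.RecC
import Pool.Agent.W459.AFThin
import Pool.Agent.W211.AF.StaC
import Pool.Agent.W115.AFStb
import Pool.Agent.W804.AFEll2
import Pool.Agent.W33.AFFin
import Pool.Agent.W73.AFId1
import Pool.Agent.W119.AF.TAU
import Pool.Agent.W431.AFSys
import Pool.Agent.W672.AF.Id2

/-!
MP_11aa79_an, Q2, answered in the negative: the products b * c of two elements of the augmentation
ideal A of the convolution algebra l1(F_2) are not dense in A. Explicitly, every product has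
distance at least 1/10000 from z = 1 - ((2+i)/4) a - ((2-i)/4) b, an element of A.

Sketch. It is enough to exclude finitely supported p, q of sum zero with R = z - p q of norm below
1/10000. Left convolution by z - R = p q is invertible on square summable functions (a factorisation
z = (1 - D)(1 - U) into two contractive perturbations of 1), so p k = 1 for some square summable k,
and k p = 1 by finiteness; hence k (p q) = q, and the branch sums (fluxes through the edges of the
tree) satisfy the same equation. For a pattern of letters and wildcards (a wildcard is any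
positive letter) let P(pattern) be the sum of |k| over the inverses of the words which follow an
initial piece of the pattern containing all its wildcards and then have at most M further letters.
The equation k = q + k (A a + B b + R) gives a recursion for these sums in which a new wildcard
costs the factor 3/2 but is paid by |A| = sqrt 5 / 4 < 2/3, while left translation of the set
of a pattern by an arbitrary word is covered by sets of patterns of bounded total weight; iterating
bounds all P(pattern) by the sum T(M) of |k| over the ball of radius M. So the flux identity shows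
that T(M) grows at most like (1.0022)^M, while the equation itself forces growth by 1.1 in each step
unless T is bounded. Hence k is summable, which contradicts p k = 1 because p has sum zero.
-/

set_option autoImplicit false

namespace Pool.Agent.Results.MP_11aa79_an.ProductsNotDense

open Pool.Agent.Results.MP_11aa79_an.NotFactor

/-- The element z = 1 - A a - B b with A = (2+i)/4, B = (2-i)/4, a and b the free generators. -/
noncomputable def zel (g : FreeGroup (Fin 2)) : ℂ :=
  (if g = 1 then 1 else 0) - (2 + Complex.I) / 4 * (if g = FreeGroup.of 0 then 1 else 0)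
    - (2 - Complex.I) / 4 * (if g = FreeGroup.of 1 then 1 else 0)

theorem zel_eq : zel = Fac.zz (0 : Fin 2) 1 ((2 + Complex.I) / 4) ((2 - Complex.I) / 4) := rfl

theorem norm_A : ‖((2 + Complex.I) / 4 : ℂ)‖ = Real.sqrt 5 / 4 := by
  rw [norm_div]
  have h1 : ‖(2 + Complex.I : ℂ)‖ = Real.sqrt 5 := by
    rw [Complex.norm_def]
    congr 1
    simp [Complex.normSq_apply]; norm_num
  rw [h1]; norm_num

theorem norm_B : ‖((2 - Complex.I) / 4 : ℂ)‖ = Real.sqrt 5 / 4 := by
  rw [norm_div]
  have h1 : ‖(2 - Complex.I : ℂ)‖ = Real.sqrt 5 := by
    rw [Complex.norm_def]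
    congr 1
    simp [Complex.normSq_apply]; norm_num
  rw [h1]; norm_num

/-- Every product of two elements of the augmentation ideal A of l1(F_2) has distance at least
1/10000 from the element z of A: the open ball of A around z with this radius contains no
product, so the products are not dense in A. -/
theorem result :
    (Function.support zel).Finite ∧ InI0 zel ∧
    (∀ b c : FreeGroup (Fin 2) → ℂ, InI0 b → InI0 c →
      InI0 (convProd b c) ∧ (1 / 10000 : ℝ) ≤ ∑' g, ‖convProd b c g - zel g‖) ∧
    (∀ a : FreeGroup (Fin 2) → ℂ, InI0 a → ∑' g, ‖a g - zel g‖ < (1 / 10000 : ℝ) →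
      ∀ b c : FreeGroup (Fin 2) → ℂ, InI0 b → InI0 c → a ≠ convProd b c) := by
  have hAB : ((2 + Complex.I) / 4 : ℂ) + (2 - Complex.I) / 4 = 1 := by ring
  have key : ∀ b c : FreeGroup (Fin 2) → ℂ, InI0 b → InI0 c →
      InI0 (convProd b c) ∧ (1 / 10000 : ℝ) ≤ ∑' g, ‖convProd b c g - zel g‖ := by
    intro b c hb hc
    refine ⟨Pool.Agent.W211.AF.inI0_conv hb hc, ?_⟩
    rw [zel_eq]
    exact Pool.Agent.W211.AF.last
      (Pool.Agent.W211.AF.core Pool.Agent.W211.AF.CovC.main Pool.Agent.W177.AF.main
        Pool.Agent.W688.AF.Apr.main Pool.Agent.W211.AF.RecC.main Pool.Agent.W459.AFThin.main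
        Pool.Agent.W211.AF.StaC.main Pool.Agent.W115.AFStb.main)
      Pool.Agent.W804.AFEll2.main Pool.Agent.W33.AFFin.main Pool.Agent.W73.AFId1.main
      Pool.Agent.W119.AF.main Pool.Agent.W672.AF.main Pool.Agent.W431.AFSys.main
      _ _ hAB norm_A norm_B b c hb hc
  refine ⟨?_, ?_, key, ?_⟩
  · refine (Set.toFinite {1, FreeGroup.of 0, FreeGroup.of 1}).subset ?_
    intro g hg
    by_contra hcon
    simp only [Set.mem_insert_iff, Set.mem_singleton_iff, not_or] at hcon
    apply hg
    unfold zel
    rw [if_neg hcon.1, if_neg hcon.2.1, if_neg hcon.2.2]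
    ring
  · rw [zel_eq]
    exact Pool.Agent.W211.AF.inI0_zz hAB
  · intro a _ ha b c hb hc h
    have := (key b c hb hc).2
    rw [← h] at this
    linarith

end Pool.Agent.Results.MP_11aa79_an.ProductsNotDense
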